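import Mathlib

set_option autoImplicit false

/-!
# Two disjoint total dominating sets: the bound `(n - 2√n)/4` fails for every `n = (2k+1)²`

Take the complete graph on `2k+1` vertices, double every edge and subdivide every edge once.
-/

namespace Pool.Agent.Results.MP_df5a7a_co.OddSquares

/-- `S` is a total dominating set of `G`: every vertex has a neighbour in `S`. -/
def IsTDSet {V : Type} (G : SimpleGraph V) (S : Set V) : Prop :=
  ∀ v : V, ∃ u ∈ S, G.Adj v u

/-- `G` has two disjoint total dominating sets. -/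
def HasTwoDisjointTDSets {V : Type} (G : SimpleGraph V) : Prop :=
  ∃ S T : Set V, Disjoint S T ∧ IsTDSet G S ∧ IsTDSet G T

/-- `td G`: the least number of edges whose addition to `G` gives a graph with two disjoint
total dominating sets. -/
noncomputable def td {V : Type} (G : SimpleGraph V) : ℕ :=
  sInf {m : ℕ | ∃ H : SimpleGraph V, G ≤ H ∧ HasTwoDisjointTDSets H ∧
    (H.edgeSet \ G.edgeSet).ncard = m}

/-- The doubled and subdivided complete graph: the diagonal pairs are the vertices of the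
complete graph, the pairs `(i, j)` and `(j, i)` subdivide the two parallel edges `ij`. -/
def dsK (b : ℕ) : SimpleGraph (Fin b × Fin b) where
  Adj p q := (p.1 ≠ p.2 ∧ q.1 = q.2 ∧ (q.1 = p.1 ∨ q.1 = p.2)) ∨
    (q.1 ≠ q.2 ∧ p.1 = p.2 ∧ (p.1 = q.1 ∨ p.1 = q.2))
  symm := ⟨fun _ _ h => h.symm⟩
  loopless := ⟨by
    rintro p (h | h)
    · exact h.1 h.2.1
    · exact h.1 h.2.1⟩

lemma degree_ge {k : ℕ} (hk : 1 ≤ k) (v : Fin (2 * k + 1) × Fin (2 * k + 1)) :
    2 ≤ ((dsK (2 * k + 1)).neighborSet v).ncard := by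
  obtain ⟨i, j⟩ := v
  by_cases hij : i = j
  · subst hij
    obtain ⟨j, hj⟩ : ∃ j : Fin (2 * k + 1), j ≠ i := by
      by_cases h0 : i = ⟨0, by omega⟩
      · exact ⟨⟨1, by omega⟩, by rw [h0]; simp [Fin.ext_iff]⟩
      · exact ⟨⟨0, by omega⟩, fun h => h0 h.symm⟩
    have h2 : ({(i, j), (j, i)} : Set (Fin (2 * k + 1) × Fin (2 * k + 1))).ncard = 2 := by
      apply Set.ncard_pair
      intro h
      exact hj (Prod.ext_iff.1 h).2
    refine le_trans h2.ge (Set.ncard_le_ncard ?_ (Set.toFinite _))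
    intro w hw
    rcases hw with rfl | rfl
    · exact Or.inr ⟨fun h => hj h.symm, rfl, Or.inl rfl⟩
    · exact Or.inr ⟨hj, rfl, Or.inr rfl⟩
  · have h2 : ({(i, i), (j, j)} : Set (Fin (2 * k + 1) × Fin (2 * k + 1))).ncard = 2 := by
      apply Set.ncard_pair
      intro h
      exact hij (Prod.ext_iff.1 h).1
    refine le_trans h2.ge (Set.ncard_le_ncard ?_ (Set.toFinite _))
    intro w hw
    rcases hw with rfl | rfl
    · exact Or.inl ⟨hij, rfl, Or.inl rfl⟩
    · exact Or.inl ⟨hij, rfl, Or.inr rfl⟩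

lemma top_has {k : ℕ} (hk : 1 ≤ k) :
    HasTwoDisjointTDSets (⊤ : SimpleGraph (Fin (2 * k + 1) × Fin (2 * k + 1))) := by
  let z : Fin (2 * k + 1) := ⟨0, by omega⟩
  let o : Fin (2 * k + 1) := ⟨1, by omega⟩
  have hzo : z ≠ o := by simp [z, o, Fin.ext_iff]
  refine ⟨{(z, z), (z, o)}, {(o, z), (o, o)}, ?_, ?_, ?_⟩
  · rw [Set.disjoint_left]
    rintro p (rfl | rfl) (h | h)
    · exact hzo (Prod.ext_iff.1 h).1
    · exact hzo (Prod.ext_iff.1 h).1
    · exact hzo (Prod.ext_iff.1 h).1
    · exact hzo (Prod.ext_iff.1 h).1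
  · intro v
    by_cases h : v = (z, z)
    · exact ⟨(z, o), by simp, by rw [h]; simpa using hzo⟩
    · exact ⟨(z, z), by simp, by simpa using h⟩
  · intro v
    by_cases h : v = (o, z)
    · exact ⟨(o, o), by simp, by rw [h]; simpa using hzo⟩
    · exact ⟨(o, z), by simp, by simpa using h⟩

/-- Every augmentation adds at least `k²` edges. -/
lemma lower {k : ℕ} (H : SimpleGraph (Fin (2 * k + 1) × Fin (2 * k + 1)))
    (_hGH : dsK (2 * k + 1) ≤ H) (hH : HasTwoDisjointTDSets H) :
    k ^ 2 ≤ (H.edgeSet \ (dsK (2 * k + 1)).edgeSet).ncard := by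
  classical
  obtain ⟨S, T, hST, hS, hT⟩ := hH
  set G := dsK (2 * k + 1) with hG
  set E : Finset (Sym2 (Fin (2 * k + 1) × Fin (2 * k + 1))) :=
    (H.edgeSet \ G.edgeSet).toFinset with hE
  have hEc : (H.edgeSet \ G.edgeSet).ncard = E.card := by
    rw [hE, Set.ncard_eq_toFinset_card']
  rw [hEc]
  -- the colour of the branch vertices
  let c : Fin (2 * k + 1) → Prop := fun i => (i, i) ∈ S
  -- bad subdividing vertices
  let bad : Finset (Fin (2 * k + 1) × Fin (2 * k + 1)) :=
    Finset.univ.filter fun p => p.1 ≠ p.2 ∧ (c p.1 ↔ c p.2)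
  have hbad : ∀ p ∈ bad, ∃ e ∈ E, p ∈ e := by
    intro p hp
    simp only [bad, Finset.mem_filter, Finset.mem_univ, true_and] at hp
    obtain ⟨hne, hc⟩ := hp
    have key : ∀ u, H.Adj p u → u ≠ (p.1, p.1) → u ≠ (p.2, p.2) → ∃ e ∈ E, p ∈ e := by
      intro u hu h1 h2
      refine ⟨s(p, u), ?_, Sym2.mem_mk_left p u⟩
      rw [hE, Set.mem_toFinset]
      refine ⟨hu, ?_⟩
      intro hadj
      have hadj' : G.Adj p u := hadj
      rcases hadj' with ⟨_, hd, h | h⟩ | ⟨_, hd, _⟩
      · exact h1 (Prod.ext h (hd.symm.trans h))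
      · exact h2 (Prod.ext h (hd.symm.trans h))
      · exact hne hd
    by_cases hc1 : c p.1
    · have hc2 : c p.2 := hc.1 hc1
      obtain ⟨u, huT, hu⟩ := hT p
      refine key u hu ?_ ?_
      · rintro rfl; exact Set.disjoint_left.1 hST hc1 huT
      · rintro rfl; exact Set.disjoint_left.1 hST hc2 huT
    · have hc2 : ¬ c p.2 := fun h => hc1 (hc.2 h)
      obtain ⟨u, huS, hu⟩ := hS p
      refine key u hu ?_ ?_
      · rintro rfl; exact hc1 huS
      · rintro rfl; exact hc2 huS
  -- count the bad vertices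
  have hcount : 2 * k ^ 2 ≤ bad.card := by
    let A : Finset (Fin (2 * k + 1)) := Finset.univ.filter c
    have hA : A.card + (Aᶜ).card = 2 * k + 1 := by
      rw [Finset.card_add_card_compl, Fintype.card_fin]
    have hsub : (A.offDiag ∪ (Aᶜ).offDiag) ⊆ bad := by
      intro p hp
      simp only [bad, Finset.mem_filter, Finset.mem_univ, true_and]
      rcases Finset.mem_union.1 hp with h | h
      · rw [Finset.mem_offDiag] at h
        obtain ⟨h1, h2, h3⟩ := h
        simp only [A, Finset.mem_filter, Finset.mem_univ, true_and] at h1 h2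
        exact ⟨h3, ⟨fun _ => h2, fun _ => h1⟩⟩
      · rw [Finset.mem_offDiag] at h
        obtain ⟨h1, h2, h3⟩ := h
        simp only [A, Finset.mem_compl, Finset.mem_filter, Finset.mem_univ, true_and] at h1 h2
        exact ⟨h3, ⟨fun h => absurd h h1, fun h => absurd h h2⟩⟩
    have hdisj : Disjoint A.offDiag (Aᶜ).offDiag := by
      rw [Finset.disjoint_left]
      intro p h1 h2
      rw [Finset.mem_offDiag] at h1 h2
      exact (Finset.mem_compl.1 h2.1) h1.1
    have h1 := Finset.card_le_card hsub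
    rw [Finset.card_union_of_disjoint hdisj, Finset.offDiag_card, Finset.offDiag_card] at h1
    refine le_trans ?_ h1
    set x := A.card
    set y := (Aᶜ).card
    have hx : x ≤ x * x := Nat.le_mul_self x
    have hy : y ≤ y * y := Nat.le_mul_self y
    zify [hx, hy]
    have hxy : (x : ℤ) + y = 2 * k + 1 := by exact_mod_cast hA
    have hxy' : (y : ℤ) = 2 * k + 1 - x := by linarith
    rw [hxy']
    nlinarith [mul_self_nonneg ((x : ℤ) - k), mul_self_nonneg ((x : ℤ) - k - 1),
      Int.le_self_sq ((x : ℤ) - k)]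
  -- every new edge meets at most two bad vertices
  have hcov : bad.card ≤ ∑ e ∈ E, (Finset.univ.filter fun p => p ∈ e).card := by
    refine le_trans (Finset.card_le_card ?_) Finset.card_biUnion_le
    intro p hp
    obtain ⟨e, he, hpe⟩ := hbad p hp
    exact Finset.mem_biUnion.2 ⟨e, he, by simpa using hpe⟩
  have htwo : ∀ e : Sym2 (Fin (2 * k + 1) × Fin (2 * k + 1)),
      (Finset.univ.filter fun p => p ∈ e).card ≤ 2 := by
    intro e
    induction e using Sym2.ind with
    | _ a b =>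
      refine le_trans (Finset.card_le_card (t := {a, b}) ?_) (Finset.card_le_two)
      intro p hp
      simpa using hp
  have hsum : ∑ e ∈ E, (Finset.univ.filter fun p => p ∈ e).card ≤ E.card * 2 := by
    calc _ ≤ ∑ _e ∈ E, 2 := Finset.sum_le_sum fun e _ => htwo e
      _ = E.card * 2 := by simp
  omega

/-- For every `k ≥ 1` there is a graph on `n = (2k+1)²` vertices with minimum degree at least
`2` and `td(G) ≥ (n - 2√n + 1)/4`. In particular `td(G) > (n - 2√n)/4`. -/
theorem result : ∀ k : ℕ, 1 ≤ k → ∃ (V : Type) (_ : Fintype V) (G : SimpleGraph V),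
    Fintype.card V = (2 * k + 1) ^ 2 ∧
    (∀ v : V, 2 ≤ (G.neighborSet v).ncard) ∧
    ((Fintype.card V : ℝ) - 2 * Real.sqrt (Fintype.card V : ℝ) + 1) / 4 ≤ (td G : ℝ) := by
  intro k hk
  refine ⟨Fin (2 * k + 1) × Fin (2 * k + 1), inferInstance, dsK (2 * k + 1), ?_,
    degree_ge hk, ?_⟩
  · rw [Fintype.card_prod, Fintype.card_fin]; ring
  · have hne : {m : ℕ | ∃ H : SimpleGraph (Fin (2 * k + 1) × Fin (2 * k + 1)),
        dsK (2 * k + 1) ≤ H ∧ HasTwoDisjointTDSets H ∧
        (H.edgeSet \ (dsK (2 * k + 1)).edgeSet).ncard = m}.Nonempty :=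
      ⟨_, ⊤, le_top, top_has hk, rfl⟩
    obtain ⟨H, h1, h2, h3⟩ := Nat.sInf_mem hne
    have h4 : k ^ 2 ≤ td (dsK (2 * k + 1)) := by
      have := lower H h1 h2
      rw [h3] at this
      exact this
    have h5 : ((k : ℝ)) ^ 2 ≤ (td (dsK (2 * k + 1)) : ℝ) := by exact_mod_cast h4
    have h6 : (Fintype.card (Fin (2 * k + 1) × Fin (2 * k + 1)) : ℝ) = (2 * k + 1) ^ 2 := by
      rw [Fintype.card_prod, Fintype.card_fin]; push_cast; ring
    rw [h6, Real.sqrt_sq (by positivity)]
    refine le_trans (le_of_eq ?_) h5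
    ring

end Pool.Agent.Results.MP_df5a7a_co.OddSquares
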